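import Pool.Agent.V11113.CT.Traj

/-!
# Trajectories of generalised Collatz maps at the values of polynomials at the members of families with small
exponential sums: consequences
-/

set_option autoImplicit false

namespace Pool.Agent.V11113.CT

open Finset Filter Polynomial
open Pool.Agent.Y927.GP Pool.Agent.H319R2.M

/-- the law for a power of `m` -/
theorem traj_exp {g : GM} {b : ℤ → ℤ} {e : ℤ → ℕ} {C : Finset (ℤ × ℕ)} {ρ : ℤ × ℕ → ℝ} (hf : g.Fac b e)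
    (hC : g.Cls e C ρ) {f : ℤ[X]} (hdeg : 1 ≤ f.natDegree) {ω : ℝ} (hω : 0 < ω)
    {ε : ℝ} (hε : 0 < ε) (H : ℝ) : ∃ c δ : ℝ, 0 < c ∧ 0 < δ ∧ ∃ t₀ : ℝ, ∀ (m : ℕ) [NeZero m] (t : ℝ), t = Real.log m →
    t₀ ≤ t → ∀ {ι : Type} (s : Finset ι) (v : ι → ZMod m),
    (∀ w : ZMod m, w ≠ 0 → ‖∑ i ∈ s, (ZMod.stdAddChar (w * v i) : ℂ)‖ ≤ s.card * (m : ℝ) ^ (-ω)) →
    ∀ (a : ℤ) (A : Finset ι), A ⊆ s → (∀ i ∈ A, f.eval (a + ((v i).val : ℤ)) ∈ g.SC C ∧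
      ¬ (Real.exp (c * t) ^ H ≤ |((f.eval (a + ((v i).val : ℤ)) : ℤ) : ℝ)| ∧
        Typ g (mu g C ρ) ε (Real.exp (c * t)) (f.eval (a + ((v i).val : ℤ))))) →
    (A.card : ℝ) ≤ Real.exp (-(δ * t)) * s.card := by
  obtain ⟨c, δ, hc, hδ, y₀, t₁, h⟩ := traj hf hC hdeg hω hε H
  have hev : ∀ᶠ t : ℝ in atTop, (y₀ : ℝ) + 1 ≤ Real.exp (c * t) ∧ (2 : ℝ) ^ δ ≤ Real.exp (c * δ / 2 * t) ∧ 0 ≤ t ∧ t₁ ≤ t := by
    have h1 : Tendsto (fun t : ℝ => Real.exp (c * t)) atTop atTop :=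
      Real.tendsto_exp_atTop.comp (tendsto_id.const_mul_atTop hc)
    have h2 : Tendsto (fun t : ℝ => Real.exp (c * δ / 2 * t)) atTop atTop :=
      Real.tendsto_exp_atTop.comp (tendsto_id.const_mul_atTop (by positivity))
    filter_upwards [h1.eventually (eventually_ge_atTop _), h2.eventually (eventually_ge_atTop _),
      eventually_ge_atTop 0, eventually_ge_atTop t₁] with s a1 a2 a3 a4
    exact ⟨a1, a2, a3, a4⟩
  obtain ⟨t₀, ht₀⟩ := eventually_atTop.1 hev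
  refine ⟨c, c * δ / 2, hc, by positivity, t₀, fun m _ t htm ht ι s v hsum a A hA hbad => ?_⟩
  obtain ⟨h1, h2, h0, ht1⟩ := ht₀ t ht
  have hE1 : 1 ≤ Real.exp (c * t) := Real.one_le_exp (by positivity)
  set y := ⌊Real.exp (c * t)⌋₊ with hy
  have hyle : (y : ℝ) ≤ Real.exp (c * t) := Nat.floor_le (by positivity)
  have hylt : Real.exp (c * t) < y + 1 := Nat.lt_floor_add_one _
  have hy0 : y₀ ≤ y := by
    rw [hy]
    apply Nat.le_floor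
    linarith
  have hy1 : (1 : ℝ) ≤ y := by
    have : 1 ≤ y := by
      rw [hy]
      apply Nat.le_floor
      simpa using hE1
    exact_mod_cast this
  have h3 := h m t htm ht1 y hy0 s v hsum a A hA (fun S hS => ⟨(hbad S hS).1, Real.exp (c * t), hyle, le_rfl, (hbad S hS).2⟩)
  refine h3.trans ?_
  apply mul_le_mul_of_nonneg_right _ (Nat.cast_nonneg _)
  have h4 : Real.exp (c * t) / 2 ≤ y := by linarith
  have h5 : (y : ℝ) ^ (-δ) ≤ (Real.exp (c * t) / 2) ^ (-δ) :=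
    Real.rpow_le_rpow_of_nonpos (by positivity) h4 (by linarith)
  refine h5.trans ?_
  rw [Real.div_rpow (by positivity) (by norm_num), Real.rpow_neg (by norm_num : (0 : ℝ) ≤ 2), div_inv_eq_mul, ← Real.exp_mul]
  calc Real.exp (c * t * -δ) * 2 ^ δ ≤ Real.exp (c * t * -δ) * Real.exp (c * δ / 2 * t) :=
        mul_le_mul_of_nonneg_left h2 (Real.exp_pos _).le
    _ = Real.exp (-(c * δ / 2 * t)) := by
        rw [← Real.exp_add]
        congr 1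
        ring

/-- Contracting classes: the trajectory comes down. -/
theorem drop {g : GM} {b : ℤ → ℤ} {e : ℤ → ℕ} {C : Finset (ℤ × ℕ)} {ρ : ℤ × ℕ → ℝ} (hf : g.Fac b e)
    (hC : g.Cls e C ρ) (hμ : mu g C ρ < 0) {f : ℤ[X]} (hdeg : 1 ≤ f.natDegree) {ω : ℝ} (hω : 0 < ω) :
    ∃ c c₂ δ : ℝ, 0 < c ∧ 0 < c₂ ∧ 0 < δ ∧ ∃ t₀ : ℝ, ∀ (m : ℕ) [NeZero m] (t : ℝ), t = Real.log m →
    t₀ ≤ t → ∀ {ι : Type} (s : Finset ι) (v : ι → ZMod m),
    (∀ w : ZMod m, w ≠ 0 → ‖∑ i ∈ s, (ZMod.stdAddChar (w * v i) : ℂ)‖ ≤ s.card * (m : ℝ) ^ (-ω)) →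
    ∀ (a : ℤ) (A : Finset ι), A ⊆ s → (∀ i ∈ A, f.eval (a + ((v i).val : ℤ)) ∈ g.SC C ∧
      ¬ (Real.exp (c * t) ≤ |((f.eval (a + ((v i).val : ℤ)) : ℤ) : ℝ)| ∧
        ∃ k : ℕ, (k : ℝ) ≤ c * t / Real.log g.d ∧ |((g.T^[k] (f.eval (a + ((v i).val : ℤ))) : ℤ) : ℝ)| ≤
          Real.exp (-(c₂ * t)) * |((f.eval (a + ((v i).val : ℤ)) : ℤ) : ℝ)|)) →
    (A.card : ℝ) ≤ Real.exp (-(δ * t)) * s.card := by
  have hd2 := g.two_le
  have hd1 : (1 : ℝ) < g.d := by have := g.dr; linarith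
  have hd0 : (0 : ℝ) < g.d := by linarith
  have hL : 0 < Real.log g.d := Real.log_pos hd1
  obtain ⟨μ, hμdef⟩ : ∃ μ, μ = mu g C ρ := ⟨_, rfl⟩
  rw [← hμdef] at hμ
  obtain ⟨c, δ, hc, hδ, t₀, h⟩ := traj_exp hf hC hdeg hω (ε := -μ / (2 * Real.log g.d))
    (by apply div_pos <;> linarith) 1
  rw [← hμdef] at h
  have hev : ∀ᶠ s : ℝ in atTop, -μ ≤ c * (-μ) / (4 * Real.log g.d) * s ∧ 0 ≤ s := by
    have h2 : Tendsto (fun s : ℝ => c * (-μ) / (4 * Real.log g.d) * s) atTop atTop :=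
      tendsto_id.const_mul_atTop (by
        apply div_pos
        · exact mul_pos hc (by linarith)
        · positivity)
    filter_upwards [h2.eventually (eventually_ge_atTop _), eventually_ge_atTop 0] with s a1 a2
    exact ⟨a1, a2⟩
  obtain ⟨s₁, hs₁⟩ := eventually_atTop.1 hev
  refine ⟨c, c * (-μ) / (4 * Real.log g.d), δ, hc, ?_, hδ, max t₀ s₁, fun m _ t htm ht ι s v hsum a A hA hbad => ?_⟩
  · apply div_pos
    · exact mul_pos hc (by linarith)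
    · positivity
  have ht0 : 0 ≤ t := (hs₁ t ((le_max_right _ _).trans ht)).2
  apply h m t htm ((le_max_left _ _).trans ht) s v hsum a A hA
  intro S hS
  obtain ⟨h1, h2⟩ := hbad S hS
  refine ⟨h1, fun h3 => h2 ?_⟩
  rw [Real.rpow_one] at h3
  obtain ⟨h4, h5⟩ := h3
  have hcs : 0 ≤ c * t / Real.log g.d := by positivity
  have hfl := Nat.floor_le hcs
  have hfl2 := Nat.lt_floor_add_one (c * t / Real.log g.d)
  refine ⟨h4, ⌊c * t / Real.log g.d⌋₊, hfl, ?_⟩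
  set k := ⌊c * t / Real.log g.d⌋₊ with hk
  have h6 := (h5 k (by
    have h7 : (k : ℝ) * Real.log g.d ≤ c * t := by
      rwa [le_div_iff₀ hL] at hfl
    calc (g.d : ℝ) ^ k = Real.exp (k * Real.log g.d) := by
          rw [Real.exp_nat_mul, Real.exp_log hd0]
      _ ≤ Real.exp (c * t) := Real.exp_le_exp.2 h7)).2
  refine h6.trans ?_
  apply mul_le_mul_of_nonneg_right _ (abs_nonneg _)
  rw [← Real.exp_mul, ← Real.exp_add]
  apply Real.exp_le_exp.2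
  have h8 := (hs₁ t ((le_max_right _ _).trans ht)).1
  have h9 : (k : ℝ) * μ ≤ (c * t / Real.log g.d - 1) * μ := by
    apply mul_le_mul_of_nonpos_right _ hμ.le
    linarith
  have h10 : c * t * (-μ / (2 * Real.log g.d)) + (c * t / Real.log g.d - 1) * μ =
      -(2 * (c * (-μ) / (4 * Real.log g.d) * t)) - μ := by
    field_simp
    ring
  linarith

/-- Expanding classes: the trajectory goes up. -/
theorem rise {g : GM} {b : ℤ → ℤ} {e : ℤ → ℕ} {C : Finset (ℤ × ℕ)} {ρ : ℤ × ℕ → ℝ} (hf : g.Fac b e)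
    (hC : g.Cls e C ρ) (hμ : 0 < mu g C ρ) {f : ℤ[X]} (hdeg : 1 ≤ f.natDegree) {ω : ℝ} (hω : 0 < ω) :
    ∃ c c₂ δ : ℝ, 0 < c ∧ 0 < c₂ ∧ 0 < δ ∧ ∃ t₀ : ℝ, ∀ (m : ℕ) [NeZero m] (t : ℝ), t = Real.log m →
    t₀ ≤ t → ∀ {ι : Type} (s : Finset ι) (v : ι → ZMod m),
    (∀ w : ZMod m, w ≠ 0 → ‖∑ i ∈ s, (ZMod.stdAddChar (w * v i) : ℂ)‖ ≤ s.card * (m : ℝ) ^ (-ω)) →
    ∀ (a : ℤ) (A : Finset ι), A ⊆ s → (∀ i ∈ A, f.eval (a + ((v i).val : ℤ)) ∈ g.SC C ∧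
      ¬ (Real.exp (c * t) ≤ |((f.eval (a + ((v i).val : ℤ)) : ℤ) : ℝ)| ∧
        ∃ k : ℕ, (k : ℝ) ≤ c * t / Real.log g.d ∧ Real.exp (c₂ * t) * |((f.eval (a + ((v i).val : ℤ)) : ℤ) : ℝ)| ≤
          |((g.T^[k] (f.eval (a + ((v i).val : ℤ))) : ℤ) : ℝ)|)) →
    (A.card : ℝ) ≤ Real.exp (-(δ * t)) * s.card := by
  have hd2 := g.two_le
  have hd1 : (1 : ℝ) < g.d := by have := g.dr; linarith
  have hd0 : (0 : ℝ) < g.d := by linarith
  have hL : 0 < Real.log g.d := Real.log_pos hd1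
  obtain ⟨μ, hμdef⟩ : ∃ μ, μ = mu g C ρ := ⟨_, rfl⟩
  rw [← hμdef] at hμ
  obtain ⟨c, δ, hc, hδ, t₀, h⟩ := traj_exp hf hC hdeg hω (ε := μ / (2 * Real.log g.d))
    (by positivity) 1
  rw [← hμdef] at h
  have hev : ∀ᶠ s : ℝ in atTop, μ ≤ c * μ / (4 * Real.log g.d) * s ∧ 0 ≤ s := by
    have h2 : Tendsto (fun s : ℝ => c * μ / (4 * Real.log g.d) * s) atTop atTop :=
      tendsto_id.const_mul_atTop (by positivity)
    filter_upwards [h2.eventually (eventually_ge_atTop _), eventually_ge_atTop 0] with s a1 a2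
    exact ⟨a1, a2⟩
  obtain ⟨s₁, hs₁⟩ := eventually_atTop.1 hev
  refine ⟨c, c * μ / (4 * Real.log g.d), δ, hc, by positivity, hδ, max t₀ s₁, fun m _ t htm ht ι s v hsum a A hA hbad => ?_⟩
  have ht0 : 0 ≤ t := (hs₁ t ((le_max_right _ _).trans ht)).2
  apply h m t htm ((le_max_left _ _).trans ht) s v hsum a A hA
  intro S hS
  obtain ⟨h1, h2⟩ := hbad S hS
  refine ⟨h1, fun h3 => h2 ?_⟩
  rw [Real.rpow_one] at h3
  obtain ⟨h4, h5⟩ := h3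
  have hcs : 0 ≤ c * t / Real.log g.d := by positivity
  have hfl := Nat.floor_le hcs
  have hfl2 := Nat.lt_floor_add_one (c * t / Real.log g.d)
  refine ⟨h4, ⌊c * t / Real.log g.d⌋₊, hfl, ?_⟩
  set k := ⌊c * t / Real.log g.d⌋₊ with hk
  have h6 := (h5 k (by
    have h7 : (k : ℝ) * Real.log g.d ≤ c * t := by
      rwa [le_div_iff₀ hL] at hfl
    calc (g.d : ℝ) ^ k = Real.exp (k * Real.log g.d) := by
          rw [Real.exp_nat_mul, Real.exp_log hd0]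
      _ ≤ Real.exp (c * t) := Real.exp_le_exp.2 h7)).1
  refine le_trans ?_ h6
  apply mul_le_mul_of_nonneg_right _ (abs_nonneg _)
  rw [← Real.exp_mul, ← Real.exp_add]
  apply Real.exp_le_exp.2
  have h8 := (hs₁ t ((le_max_right _ _).trans ht)).1
  have h9 : (c * t / Real.log g.d - 1) * μ ≤ (k : ℝ) * μ := by
    apply mul_le_mul_of_nonneg_right _ hμ.le
    linarith
  have h10 : c * t * -(μ / (2 * Real.log g.d)) + (c * t / Real.log g.d - 1) * μ =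
      2 * (c * μ / (4 * Real.log g.d) * t) - μ := by
    field_simp
    ring
  linarith

/-- the sizes of the values -/
lemma size_up (f : ℤ[X]) (c : ℝ) (hc : 0 < c) (B : ℝ) (hB : 0 < B) : ∃ B' : ℝ, 0 < B' ∧ ∃ t₀ : ℝ, ∀ t : ℝ, t₀ ≤ t →
    ∀ n : ℤ, |(n : ℝ)| ≤ Real.exp (B * t) → Real.exp (c * t) ≤ |((f.eval n : ℤ) : ℝ)| →
    |((f.eval n : ℤ) : ℝ)| ≤ Real.exp (B' * t) := by
  obtain ⟨C, hC, h⟩ := growth_up f
  have hev : ∀ᶠ t : ℝ in atTop, |((f.eval 0 : ℤ) : ℝ)| + 1 ≤ Real.exp (c * t) ∧ 1 ≤ t := by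
    have h1 : Tendsto (fun t : ℝ => Real.exp (c * t)) atTop atTop :=
      Real.tendsto_exp_atTop.comp (tendsto_id.const_mul_atTop hc)
    filter_upwards [h1.eventually (eventually_ge_atTop _), eventually_ge_atTop 1] with s a1 a2
    exact ⟨a1, a2⟩
  obtain ⟨t₀, ht₀⟩ := eventually_atTop.1 hev
  refine ⟨Real.log C + B * f.natDegree + 1, by
    have := Real.log_nonneg hC
    positivity, t₀, fun t ht n hn hlow => ?_⟩
  obtain ⟨h1, h2⟩ := ht₀ t ht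
  have hn0 : n ≠ 0 := by
    intro h0
    rw [h0] at hlow
    linarith
  have hn1 : (1 : ℝ) ≤ |(n : ℝ)| := by
    have : 1 ≤ |n| := Int.one_le_abs hn0
    exact_mod_cast this
  have h3 := h n hn1
  refine h3.trans ?_
  calc C * |(n : ℝ)| ^ f.natDegree
      ≤ C * (Real.exp (B * t)) ^ f.natDegree := by gcongr
    _ = Real.exp (Real.log C) * Real.exp (f.natDegree * (B * t)) := by
        rw [Real.exp_log (by linarith), Real.exp_nat_mul]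
    _ = Real.exp (Real.log C + f.natDegree * (B * t)) := by rw [Real.exp_add]
    _ ≤ _ := by
        apply Real.exp_le_exp.2
        have h5 := Real.log_nonneg hC
        nlinarith

/-- from exponentials to powers -/
lemma exp_to_pow {c₂ B' : ℝ} (hc₂ : 0 < c₂) (hB' : 0 < B') {t : ℝ} {G : ℝ} (hG : 0 < G) (h : G ≤ Real.exp (B' * t)) :
    Real.exp (-(c₂ * t)) * G ≤ G ^ (1 - c₂ / B') ∧ G ^ (1 + c₂ / B') ≤ Real.exp (c₂ * t) * G := by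
  have h1 : G ^ (c₂ / B') ≤ Real.exp (c₂ * t) := by
    calc G ^ (c₂ / B') ≤ (Real.exp (B' * t)) ^ (c₂ / B') := Real.rpow_le_rpow hG.le h (by positivity)
      _ = Real.exp (c₂ * t) := by
          rw [← Real.exp_mul]
          congr 1
          field_simp
  constructor
  · rw [Real.rpow_sub hG, Real.rpow_one, Real.exp_neg, mul_comm, ← div_eq_mul_inv]
    exact div_le_div_of_nonneg_left hG.le (by positivity) h1
  · rw [Real.rpow_add hG, Real.rpow_one, mul_comm]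
    exact mul_le_mul_of_nonneg_right h1 hG.le

/-- the sizes of the members -/
lemma member_size {B : ℝ} (hB : 1 ≤ B) (m : ℕ) [NeZero m] (hm : 2 ≤ m) (a : ℤ) (ha : |(a : ℝ)| ≤ (m : ℝ) ^ B) (z : ZMod m) :
    |((a + (z.val : ℤ) : ℤ) : ℝ)| ≤ Real.exp ((B + 1) * Real.log m) := by
  have hm0 : (0 : ℝ) < m := by exact_mod_cast Nat.pos_of_ne_zero (NeZero.ne m)
  have hm1 : (1 : ℝ) ≤ m := by exact_mod_cast (by omega : 1 ≤ m)
  have hm2 : (2 : ℝ) ≤ m := by exact_mod_cast hm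
  have h1 : ((z.val : ℕ) : ℝ) ≤ m := by exact_mod_cast (ZMod.val_lt z).le
  have h2 : (m : ℝ) ≤ (m : ℝ) ^ B := by
    conv_lhs => rw [← Real.rpow_one (m : ℝ)]
    exact Real.rpow_le_rpow_of_exponent_le hm1 hB
  have h3 : |((a + (z.val : ℤ) : ℤ) : ℝ)| ≤ |(a : ℝ)| + (z.val : ℕ) := by
    push_cast
    refine (abs_add_le _ _).trans (le_of_eq ?_)
    rw [Nat.abs_cast]
  have h4 : Real.exp ((B + 1) * Real.log m) = (m : ℝ) ^ B * m := by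
    rw [mul_comm, Real.exp_mul, Real.exp_log hm0, Real.rpow_add hm0, Real.rpow_one]
  rw [h4]
  have h5 : 0 < (m : ℝ) ^ B := by positivity
  nlinarith

theorem drop_pow {g : GM} {b : ℤ → ℤ} {e : ℤ → ℕ} {C : Finset (ℤ × ℕ)} {ρ : ℤ × ℕ → ℝ} (hf : g.Fac b e)
    (hC : g.Cls e C ρ) (hμ : mu g C ρ < 0) {f : ℤ[X]} (hdeg : 1 ≤ f.natDegree) {ω : ℝ} (hω : 0 < ω) (B : ℝ) (hB : 1 ≤ B) :
    ∃ η δ : ℝ, 0 < η ∧ 0 < δ ∧ ∃ m₀ : ℕ, ∀ (m : ℕ) [NeZero m], m₀ ≤ m → ∀ {ι : Type} (s : Finset ι) (v : ι → ZMod m),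
    (∀ w : ZMod m, w ≠ 0 → ‖∑ i ∈ s, (ZMod.stdAddChar (w * v i) : ℂ)‖ ≤ s.card * (m : ℝ) ^ (-ω)) →
    ∀ (a : ℤ), |(a : ℝ)| ≤ (m : ℝ) ^ B → ∀ (A : Finset ι), A ⊆ s → (∀ i ∈ A, f.eval (a + ((v i).val : ℤ)) ∈ g.SC C ∧
      ∀ k : ℕ, |((f.eval (a + ((v i).val : ℤ)) : ℤ) : ℝ)| ^ (1 - η) <
        |((g.T^[k] (f.eval (a + ((v i).val : ℤ))) : ℤ) : ℝ)|) →
    (A.card : ℝ) ≤ (m : ℝ) ^ (-δ) * s.card := by
  obtain ⟨c, c₂, δ, hc, hc₂, hδ, t₀, h⟩ := drop hf hC hμ hdeg hω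
  obtain ⟨B', hB', t₁, h'⟩ := size_up f c hc (B + 1) (by linarith)
  refine ⟨c₂ / B', δ, by positivity, hδ, max 2 ⌈Real.exp (max t₀ t₁)⌉₊, fun m _ hm ι s v hsum a ha A hA hbad => ?_⟩
  have hm2 : 2 ≤ m := (le_max_left _ _).trans hm
  have hm0 : (0 : ℝ) < m := by exact_mod_cast (by omega : 0 < m)
  have ht : max t₀ t₁ ≤ Real.log m := by
    rw [Real.le_log_iff_exp_le hm0]
    exact (Nat.le_ceil _).trans (Nat.cast_le.2 ((le_max_right _ _).trans hm))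
  have hconv : (m : ℝ) ^ (-δ) = Real.exp (-(δ * Real.log m)) := by
    rw [Real.rpow_def_of_pos hm0]
    congr 1
    ring
  rw [hconv]
  apply h m (Real.log m) rfl ((le_max_left _ _).trans ht) s v hsum a A hA
  intro S hS
  obtain ⟨h1, h2⟩ := hbad S hS
  refine ⟨h1, fun h3 => ?_⟩
  obtain ⟨h4, k, -, h5⟩ := h3
  have h6 := h' (Real.log m) ((le_max_right _ _).trans ht) _ (member_size hB m hm2 a ha (v S)) h4
  have hG : 0 < |((f.eval (a + ((v S).val : ℤ)) : ℤ) : ℝ)| := lt_of_lt_of_le (Real.exp_pos _) h4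
  exact absurd (h5.trans (exp_to_pow hc₂ hB' hG h6).1) (not_le.2 (h2 k))

theorem rise_pow {g : GM} {b : ℤ → ℤ} {e : ℤ → ℕ} {C : Finset (ℤ × ℕ)} {ρ : ℤ × ℕ → ℝ} (hf : g.Fac b e)
    (hC : g.Cls e C ρ) (hμ : 0 < mu g C ρ) {f : ℤ[X]} (hdeg : 1 ≤ f.natDegree) {ω : ℝ} (hω : 0 < ω) (B : ℝ) (hB : 1 ≤ B) :
    ∃ η δ : ℝ, 0 < η ∧ 0 < δ ∧ ∃ m₀ : ℕ, ∀ (m : ℕ) [NeZero m], m₀ ≤ m → ∀ {ι : Type} (s : Finset ι) (v : ι → ZMod m),
    (∀ w : ZMod m, w ≠ 0 → ‖∑ i ∈ s, (ZMod.stdAddChar (w * v i) : ℂ)‖ ≤ s.card * (m : ℝ) ^ (-ω)) →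
    ∀ (a : ℤ), |(a : ℝ)| ≤ (m : ℝ) ^ B → ∀ (A : Finset ι), A ⊆ s → (∀ i ∈ A, f.eval (a + ((v i).val : ℤ)) ∈ g.SC C ∧
      ∀ k : ℕ, |((g.T^[k] (f.eval (a + ((v i).val : ℤ))) : ℤ) : ℝ)| <
        |((f.eval (a + ((v i).val : ℤ)) : ℤ) : ℝ)| ^ (1 + η)) →
    (A.card : ℝ) ≤ (m : ℝ) ^ (-δ) * s.card := by
  obtain ⟨c, c₂, δ, hc, hc₂, hδ, t₀, h⟩ := rise hf hC hμ hdeg hω
  obtain ⟨B', hB', t₁, h'⟩ := size_up f c hc (B + 1) (by linarith)
  refine ⟨c₂ / B', δ, by positivity, hδ, max 2 ⌈Real.exp (max t₀ t₁)⌉₊, fun m _ hm ι s v hsum a ha A hA hbad => ?_⟩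
  have hm2 : 2 ≤ m := (le_max_left _ _).trans hm
  have hm0 : (0 : ℝ) < m := by exact_mod_cast (by omega : 0 < m)
  have ht : max t₀ t₁ ≤ Real.log m := by
    rw [Real.le_log_iff_exp_le hm0]
    exact (Nat.le_ceil _).trans (Nat.cast_le.2 ((le_max_right _ _).trans hm))
  have hconv : (m : ℝ) ^ (-δ) = Real.exp (-(δ * Real.log m)) := by
    rw [Real.rpow_def_of_pos hm0]
    congr 1
    ring
  rw [hconv]
  apply h m (Real.log m) rfl ((le_max_left _ _).trans ht) s v hsum a A hA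
  intro S hS
  obtain ⟨h1, h2⟩ := hbad S hS
  refine ⟨h1, fun h3 => ?_⟩
  obtain ⟨h4, k, -, h5⟩ := h3
  have h6 := h' (Real.log m) ((le_max_right _ _).trans ht) _ (member_size hB m hm2 a ha (v S)) h4
  have hG : 0 < |((f.eval (a + ((v S).val : ℤ)) : ℤ) : ℝ)| := lt_of_lt_of_le (Real.exp_pos _) h4
  exact absurd ((exp_to_pow hc₂ hB' hG h6).2.trans h5) (not_le.2 (h2 k))

end Pool.Agent.V11113.CT
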