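import Pool.Agent.Y57.HS.Cls
import Pool.Agent.V11113.MR.Var

/-!
# Trajectories of generalised Collatz maps at the values of polynomials at the members of families with small
exponential sums
-/

set_option autoImplicit false

namespace Pool.Agent.V11113.CT

open Finset Filter Polynomial
open Pool.Agent.Y927.GP Pool.Agent.H319R2.M
open Pool.Agent.Y57.HS (classes)
open Pool.Agent.V11113.MR (kap equi kap_mono kap_nonneg)

/-- the multiplicities -/
lemma mult (m : ℕ) [NeZero m] {ι : Type*} (s : Finset ι) (v : ι → ZMod m) (δ : ℝ)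
    (hsum : ∀ w : ZMod m, w ≠ 0 → ‖∑ i ∈ s, (ZMod.stdAddChar (w * v i) : ℂ)‖ ≤ s.card * (m : ℝ) ^ (-δ))
    (z : ZMod m) [DecidablePred fun i => v i = z] :
    ((s.filter (fun i => v i = z)).card : ℝ) ≤ s.card * (1 / m + (m : ℝ) ^ (-δ)) := by
  classical
  have hm0 : (0 : ℝ) < m := by exact_mod_cast Nat.pos_of_ne_zero (NeZero.ne m)
  have hs0 : (0 : ℝ) ≤ s.card := Nat.cast_nonneg _
  have hδ0 : (0 : ℝ) < (m : ℝ) ^ (-δ) := Real.rpow_pos_of_pos hm0 _
  have h1 : ∑ w : ZMod m, ∑ i ∈ s, (ZMod.stdAddChar (w * (v i - z)) : ℂ) = m * (s.filter (fun i => v i = z)).card := by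
    rw [sum_comm]
    have h2 : ∀ i ∈ s, ∑ w : ZMod m, (ZMod.stdAddChar (w * (v i - z)) : ℂ) = if v i = z then (m : ℂ) else 0 := by
      intro i _
      rw [AddChar.sum_mulShift _ (ZMod.isPrimitive_stdAddChar m), ZMod.card]
      by_cases h : v i = z
      · rw [if_pos h, if_pos (sub_eq_zero.2 h)]
      · rw [if_neg h, if_neg (fun h' => h (sub_eq_zero.1 h'))]
        simp
    rw [sum_congr rfl h2, ← sum_filter, sum_const, nsmul_eq_mul, mul_comm]
  have h3 : ∀ w : ZMod m, ‖∑ i ∈ s, (ZMod.stdAddChar (w * (v i - z)) : ℂ)‖ ≤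
      (if w = 0 then (s.card : ℝ) else 0) + s.card * (m : ℝ) ^ (-δ) := by
    intro w
    by_cases hw : w = 0
    · rw [if_pos hw]
      have h4 : ‖∑ i ∈ s, (ZMod.stdAddChar (w * (v i - z)) : ℂ)‖ ≤ s.card := by
        refine (norm_sum_le _ _).trans ?_
        rw [hw]
        simp
      have := mul_nonneg hs0 hδ0.le
      linarith
    · rw [if_neg hw, zero_add]
      refine le_trans (le_of_eq ?_) (hsum w hw)
      have h4 : ∀ i ∈ s, (ZMod.stdAddChar (w * (v i - z)) : ℂ) =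
          (ZMod.stdAddChar (w * v i) : ℂ) * (ZMod.stdAddChar (-(w * z)) : ℂ) := by
        intro i _
        rw [← AddChar.map_add_eq_mul]
        congr 1
        ring
      rw [sum_congr rfl h4, ← sum_mul, norm_mul, AddChar.norm_apply, mul_one]
  have h5 : ‖∑ w : ZMod m, ∑ i ∈ s, (ZMod.stdAddChar (w * (v i - z)) : ℂ)‖ ≤
      s.card + m * (s.card * (m : ℝ) ^ (-δ)) := by
    refine (norm_sum_le _ _).trans ((sum_le_sum fun w _ => h3 w).trans (le_of_eq ?_))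
    rw [sum_add_distrib, sum_ite_eq' univ (0 : ZMod m), if_pos (mem_univ _), sum_const, card_univ, ZMod.card, nsmul_eq_mul]
  rw [h1, norm_mul, Complex.norm_natCast, Complex.norm_natCast] at h5
  have h6 : (s.card : ℝ) * (1 / m + (m : ℝ) ^ (-δ)) = (s.card + m * (s.card * (m : ℝ) ^ (-δ))) / m := by
    field_simp
  rw [h6, le_div_iff₀ hm0, mul_comm]
  exact h5

/-- few members have small values -/
lemma few_low {f : ℤ[X]} (hd : 1 ≤ f.natDegree) : ∃ C : ℝ, 0 < C ∧ ∀ Z : ℝ, 1 ≤ Z →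
    ∀ (m : ℕ) [NeZero m] {ι : Type} (s : Finset ι) (v : ι → ZMod m) (δ : ℝ)
    (_ : ∀ w : ZMod m, w ≠ 0 → ‖∑ i ∈ s, (ZMod.stdAddChar (w * v i) : ℂ)‖ ≤ s.card * (m : ℝ) ^ (-δ))
    (a : ℤ) (A : Finset ι), A ⊆ s → (∀ i ∈ A, |((f.eval (a + ((v i).val : ℤ)) : ℤ) : ℝ)| < Z) →
    (A.card : ℝ) ≤ C * Z * (s.card * (1 / m + (m : ℝ) ^ (-δ))) := by
  classical
  obtain ⟨C, hC, h⟩ := few_small hd
  refine ⟨C, hC, fun Z hZ m _ ι s v δ hsum a A hA hz => ?_⟩
  have hm0 : (0 : ℝ) < m := by exact_mod_cast Nat.pos_of_ne_zero (NeZero.ne m)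
  have h1 := h Z hZ (A.image (fun i => a + ((v i).val : ℤ))) (by
    intro n hn
    rw [mem_image] at hn
    obtain ⟨i, hi, rfl⟩ := hn
    exact hz i hi)
  have h2 : Z ^ (1 / (f.natDegree : ℝ)) ≤ Z := by
    conv_rhs => rw [← Real.rpow_one Z]
    apply Real.rpow_le_rpow_of_exponent_le hZ
    have : (1 : ℝ) ≤ f.natDegree := by exact_mod_cast hd
    rw [div_le_one (by linarith)]
    exact this
  have h3 : (A.card : ℝ) ≤ ∑ n ∈ A.image (fun i => a + ((v i).val : ℤ)), (s.card * (1 / m + (m : ℝ) ^ (-δ)) : ℝ) := by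
    have h4 : A.card = ∑ n ∈ A.image (fun i => a + ((v i).val : ℤ)), (A.filter (fun i => a + ((v i).val : ℤ) = n)).card :=
      card_eq_sum_card_image _ _
    have h5 : (A.card : ℝ) = ∑ n ∈ A.image (fun i => a + ((v i).val : ℤ)),
        ((A.filter (fun i => a + ((v i).val : ℤ) = n)).card : ℝ) := by exact_mod_cast h4
    rw [h5]
    refine sum_le_sum fun n _ => ?_
    refine le_trans ?_ (mult m s v δ hsum ((n - a : ℤ) : ZMod m))
    apply Nat.cast_le.2
    apply card_le_card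
    intro i hi
    rw [mem_filter] at hi ⊢
    refine ⟨hA hi.1, ?_⟩
    have h6 : n - a = ((v i).val : ℤ) := by omega
    rw [h6, Int.cast_natCast, ZMod.natCast_zmod_val]
  rw [sum_const, nsmul_eq_mul] at h3
  have h7 : (0 : ℝ) ≤ s.card * (1 / m + (m : ℝ) ^ (-δ)) := by positivity
  refine h3.trans (mul_le_mul_of_nonneg_right ?_ h7)
  exact h1.trans (mul_le_mul_of_nonneg_left h2 hC.le)

/-- residues in a set -/
lemma in_set (m : ℕ) [NeZero m] {ι : Type} (s : Finset ι) (v : ι → ZMod m) (δ : ℝ)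
    (hsum : ∀ w : ZMod m, w ≠ 0 → ‖∑ i ∈ s, (ZMod.stdAddChar (w * v i) : ℂ)‖ ≤ s.card * (m : ℝ) ^ (-δ))
    (a : ℤ) (q : ℕ) (hq : 0 < q) (R : Finset ℕ) [DecidablePred fun i => ((a + ((v i).val : ℤ)) % (q : ℤ)).toNat ∈ R] :
    ((s.filter (fun i => ((a + ((v i).val : ℤ)) % (q : ℤ)).toNat ∈ R)).card : ℝ) ≤
      s.card * (R.card / q) + s.card * (q * kap m δ q) := by
  classical
  have : NeZero q := ⟨hq.ne'⟩
  have hq0 : (0 : ℝ) < q := by exact_mod_cast hq
  have h := equi m s v δ hsum a q (fun z => if z.val ∈ R then (1 : ℝ) else 0) (by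
    intro r
    split_ifs <;> norm_num)
  have hv : ∀ n : ℤ, ((n : ZMod q)).val = (n % (q : ℤ)).toNat := by
    intro n
    have h1 : (((n : ZMod q)).val : ℤ) = n % (q : ℤ) := ZMod.val_intCast n
    omega
  have h1 : ∑ i ∈ s, (fun z : ZMod q => if z.val ∈ R then (1 : ℝ) else 0) ((a + ((v i).val : ℤ) : ℤ) : ZMod q) =
      ((s.filter (fun i => ((a + ((v i).val : ℤ)) % (q : ℤ)).toNat ∈ R)).card : ℝ) := by
    simp only [hv]
    rw [← sum_filter, sum_const, nsmul_eq_mul, mul_one]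
  have h2 : ∑ r : ZMod q, (fun z : ZMod q => if z.val ∈ R then (1 : ℝ) else 0) r ≤ R.card := by
    simp only
    rw [← sum_filter, sum_const, nsmul_eq_mul, mul_one]
    apply Nat.cast_le.2
    refine card_le_card_of_injOn ZMod.val ?_ ?_
    · intro z hz
      rw [mem_coe, mem_filter] at hz
      exact hz.2
    · intro z _ z' _ hzz
      exact ZMod.val_injective q hzz
  rw [h1] at h
  have h3 := (abs_le.1 h).2
  have h4 : (s.card : ℝ) / q * ∑ r : ZMod q, (fun z : ZMod q => if z.val ∈ R then (1 : ℝ) else 0) r ≤ s.card * (R.card / q) := by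
    have : (s.card : ℝ) * (R.card / q) = s.card / q * R.card := by ring
    rw [this]
    exact mul_le_mul_of_nonneg_left h2 (by positivity)
  linarith

/-- **Trajectories of the values of polynomials at the members of a family.** -/
theorem traj {g : GM} {b : ℤ → ℤ} {e : ℤ → ℕ} {C : Finset (ℤ × ℕ)} {ρ : ℤ × ℕ → ℝ} (hf : g.Fac b e)
    (hC : g.Cls e C ρ) {f : ℤ[X]} (hdeg : 1 ≤ f.natDegree) {ω : ℝ} (hω : 0 < ω)
    {ε : ℝ} (hε : 0 < ε) (H : ℝ) : ∃ c δ : ℝ, 0 < c ∧ 0 < δ ∧ ∃ y₀ : ℕ, ∃ t₀ : ℝ, ∀ (m : ℕ) [NeZero m] (t : ℝ), t = Real.log m →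
    t₀ ≤ t → ∀ y : ℕ, y₀ ≤ y → ∀ {ι : Type} (s : Finset ι) (v : ι → ZMod m),
    (∀ w : ZMod m, w ≠ 0 → ‖∑ i ∈ s, (ZMod.stdAddChar (w * v i) : ℂ)‖ ≤ s.card * (m : ℝ) ^ (-ω)) →
    ∀ (a : ℤ) (A : Finset ι), A ⊆ s → (∀ i ∈ A, f.eval (a + ((v i).val : ℤ)) ∈ g.SC C ∧
      ∃ Y : ℝ, y ≤ Y ∧ Y ≤ Real.exp (c * t) ∧ ¬ (Real.exp (c * t) ^ H ≤ |((f.eval (a + ((v i).val : ℤ)) : ℤ) : ℝ)| ∧
        Typ g (mu g C ρ) ε Y (f.eval (a + ((v i).val : ℤ))))) →
    (A.card : ℝ) ≤ (y : ℝ) ^ (-δ) * s.card := by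
  classical
  set μ := mu g C ρ with hμ
  have hd2 := g.two_le
  have hd1 : (1 : ℝ) < g.d := by have := g.dr; linarith
  have hd0 : (0 : ℝ) < g.d := by linarith
  have hL : 0 < Real.log g.d := Real.log_pos hd1
  set κ : ℝ := max 0 (-μ / Real.log g.d) with hκdef
  have hκ0 : 0 ≤ κ := le_max_left _ _
  have hκ : -μ ≤ κ * Real.log g.d := by
    have h1 : -μ / Real.log g.d ≤ κ := le_max_right _ _
    rwa [div_le_iff₀ hL] at h1
  set D : ℝ := max (κ + 4) H with hD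
  have hD4 : κ + 4 ≤ D := le_max_left _ _
  have hDH : H ≤ D := le_max_right _ _
  have hD0 : 0 < D := by linarith
  set ε1 : ℝ := min ε 1 with hε1
  have hε10 : 0 < ε1 := lt_min hε one_pos
  have hε1ε : ε1 ≤ ε := min_le_left _ _
  have hε1β : ε1 ≤ (D - κ) / 4 := by
    have : ε1 ≤ 1 := min_le_right _ _
    linarith
  obtain ⟨δ1, K1, hδ10, hδ11, hK1, hcls⟩ := classes hf hC hdeg (η := ε1 / 4 * Real.log g.d) (by positivity)
  obtain ⟨C3, hC3, hlow⟩ := few_low hdeg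
  obtain ⟨Y0, hY01, hlarge⟩ := large g.d hd2 (show (0 : ℝ) < 1 by norm_num) (show 0 < ε1 / 4 by positivity)
    (show 0 < (D - κ) / 2 by linarith) g.R_nonneg 0
  obtain ⟨w, hw⟩ : ∃ w : ℝ, w = min ω 1 := ⟨_, rfl⟩
  have hw0 : 0 < w := by rw [hw]; exact lt_min hω one_pos
  have hwω : w ≤ ω := by rw [hw]; exact min_le_left _ _
  have hw1 : w ≤ 1 := by rw [hw]; exact min_le_right _ _
  set c : ℝ := w / (2 * D + 10) with hc
  have hc0 : 0 < c := by positivity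
  have hcD : c * D ≤ w / 2 ∧ c ≤ w / 10 := by
    have h1 : c * (2 * D + 10) = w := by
      rw [hc]
      field_simp
    constructor
    · nlinarith
    · nlinarith
  obtain ⟨ϑ, hϑ⟩ : ∃ ϑ : ℝ, ϑ = (g.d : ℝ) ^ (-δ1) := ⟨_, rfl⟩
  have hϑ0 : 0 < ϑ := by rw [hϑ]; positivity
  have hϑ1 : ϑ < 1 := by
    rw [hϑ]
    exact Real.rpow_lt_one_of_one_lt_of_neg hd1 (by linarith)
  obtain ⟨B, hB⟩ : ∃ B : ℝ, B = 2 * C3 + 2 + K1 * (g.d : ℝ) ^ δ1 / (1 - ϑ) := ⟨_, rfl⟩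
  have h1ϑ : 0 < 1 - ϑ := by linarith
  have hB0 : 0 < B := by rw [hB]; positivity
  obtain ⟨δ, hδ⟩ : ∃ δ : ℝ, δ = min (δ1 / 2) (1 / 2) := ⟨_, rfl⟩
  have hδ0 : 0 < δ := by rw [hδ]; exact lt_min (by positivity) (by norm_num)
  have hev : ∀ᶠ y : ℕ in atTop, (1 : ℝ) ≤ y ∧ Y0 ≤ y ∧ B ≤ (y : ℝ) ^ δ := by
    have h1 : Tendsto (fun x : ℕ => (x : ℝ)) atTop atTop := tendsto_natCast_atTop_atTop
    have h2 : Tendsto (fun x : ℕ => (x : ℝ) ^ δ) atTop atTop := (tendsto_rpow_atTop hδ0).comp h1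
    filter_upwards [h1.eventually (eventually_ge_atTop _), h1.eventually (eventually_ge_atTop _),
      h2.eventually (eventually_ge_atTop _)] with y a1 a2 a4
    exact ⟨a1, a2, a4⟩
  obtain ⟨y₀, hy₀⟩ := eventually_atTop.1 hev
  have hevt : ∀ᶠ t : ℝ in atTop, 0 ≤ t ∧ 8 + 4 * t ≤ Real.exp (w / 2 * t) := by
    have h1 : Tendsto (fun t : ℝ => Real.exp (w / 2 * t)  - (8 + 4 * t)) atTop atTop := by
      have h2 : Tendsto (fun t : ℝ => (w / 2 * t) ^ 2 / 2 - (8 + 4 * t)) atTop atTop := by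
        have h3 : Tendsto (fun t : ℝ => t * (w ^ 2 / 8 * t - 4) - 8) atTop atTop := by
          apply tendsto_atTop_add_const_right
          apply tendsto_id.atTop_mul_atTop₀
          exact tendsto_atTop_add_const_right _ _ (tendsto_id.const_mul_atTop (by positivity))
        refine h3.congr fun t => ?_
        ring
      refine tendsto_atTop_mono' _ ?_ h2
      filter_upwards [eventually_ge_atTop (0 : ℝ)] with t ht
      have h4 := Real.quadratic_le_exp_of_nonneg (x := w / 2 * t) (by positivity)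
      have h5 : 0 ≤ w / 2 * t := by positivity
      linarith
    filter_upwards [eventually_ge_atTop (0 : ℝ), h1.eventually (eventually_ge_atTop 0)] with t a1 a2
    exact ⟨a1, by linarith⟩
  obtain ⟨t₀, ht₀⟩ := eventually_atTop.1 hevt
  refine ⟨c, δ, hc0, hδ0, y₀, t₀, fun m _ t htm ht y hy ι s v hsum a A hA hbad => ?_⟩
  obtain ⟨ht0, htexp⟩ := ht₀ t ht
  obtain ⟨hy1, hyY0, hyB⟩ := hy₀ y hy
  have hm1n : 1 ≤ m := Nat.one_le_iff_ne_zero.2 (NeZero.ne m)
  have hm0 : (0 : ℝ) < m := by exact_mod_cast hm1n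
  have hm1 : (1 : ℝ) ≤ m := by exact_mod_cast hm1n
  have hmw : (m : ℝ) ^ (-ω) ≤ Real.exp (-(w * t)) := by
    have hmt : (m : ℝ) = Real.exp t := by rw [htm, Real.exp_log hm0]
    rw [hmt, ← Real.exp_mul]
    apply Real.exp_le_exp.2
    nlinarith
  have hmi : 1 / (m : ℝ) ≤ Real.exp (-(w * t)) := by
    have hmt : (m : ℝ) = Real.exp t := by rw [htm, Real.exp_log hm0]
    rw [hmt, one_div, ← Real.exp_neg]
    apply Real.exp_le_exp.2
    nlinarith
  have hyp : (0 : ℝ) < y := by linarith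
  have hch0 : (0 : ℝ) ≤ (s.card : ℝ) := Nat.cast_nonneg _
  rcases A.eq_empty_or_nonempty with hA0 | ⟨S₀, hS₀⟩
  · rw [hA0, card_empty, Nat.cast_zero]
    positivity
  have hyr : (y : ℝ) ≤ Real.exp (c * t) := by
    obtain ⟨-, Y, h1, h2, -⟩ := hbad S₀ hS₀
    exact h1.trans h2
  obtain ⟨n, hn⟩ : ∃ n : ι → ℤ, n = fun i => a + ((v i).val : ℤ) := ⟨_, rfl⟩
  have hn' : ∀ i, a + ((v i).val : ℤ) = n i := fun i => by rw [hn]
  simp only [hn'] at hbad
  set M : ℕ := ⌊c * t / Real.log g.d⌋₊ + 1 with hM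
  set N0 : ℕ := Nat.log g.d y with hN0
  have hy0' : y ≠ 0 := by
    intro h
    rw [h] at hy1
    norm_num at hy1
  set W : ℕ → Finset ℤ := fun n1 => (Ioc (-1 : ℤ) (-1 + (g.d : ℤ) ^ n1)).filter (fun n => ∃ x : ℤ,
    x ≡ n [ZMOD (g.d : ℤ) ^ n1] ∧ f.eval x ∈ g.SC C ∧ Unb g μ (ε1 / 4 * Real.log g.d) n1 (f.eval x)) with hW
  set R : ℕ → Finset ℕ := fun n1 => (W n1).image Int.toNat with hR
  have hRcard : ∀ n1, ((R n1).card : ℝ) ≤ K1 * ((g.d : ℝ) ^ n1) ^ (1 - δ1) := by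
    intro n1
    have h1 : ((R n1).card : ℝ) ≤ (W n1).card := by exact_mod_cast card_image_le
    refine h1.trans (hcls n1 (W n1) (filter_subset _ _) ?_)
    intro n hn
    rw [hW] at hn
    exact (mem_filter.1 hn).2
  set A1 := A.filter (fun i => |((f.eval (n i) : ℤ) : ℝ)| < Real.exp (c * t) ^ D) with hA1
  have hsub : A ⊆ A1 ∪ (Ico N0 M).biUnion (fun n1 =>
      s.filter (fun i => (n i % ((g.d ^ n1 : ℕ) : ℤ)).toNat ∈ R n1)) := by
    intro S hS
    rw [mem_union]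
    by_cases hsm : |((f.eval (n S) : ℤ) : ℝ)| < Real.exp (c * t) ^ D
    · left
      rw [hA1, mem_filter]
      exact ⟨hS, hsm⟩
    right
    push Not at hsm
    obtain ⟨hSC, Y, hY1, hY2, hnT⟩ := hbad S hS
    have hexp1 : 1 ≤ Real.exp (c * t) := Real.one_le_exp (by positivity)
    have hT : ¬ Typ g μ ε Y (f.eval (n S)) := by
      intro h
      apply hnT
      refine ⟨?_, h⟩
      exact (Real.rpow_le_rpow_of_exponent_le hexp1 hDH).trans hsm
    have hY : 1 ≤ Y := hy1.trans hY1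
    obtain ⟨n1, hn1, hn2, -⟩ := scale g.d hd2 Y hY
    obtain ⟨-, hYε, hRN⟩ := hlarge Y (hyY0.trans hY1) n1 hn1 hn2
    have hU : Unb g μ (ε1 / 4 * Real.log g.d) n1 (f.eval (n S)) := by
      by_contra hU
      apply hT
      apply typ_of g hκ0 hκ hε10 hε1ε hε1β hY hn1 hn2 hYε hRN _ hU
      refine le_trans ?_ hsm
      calc Y ^ (D - ε1) ≤ Y ^ D := Real.rpow_le_rpow_of_exponent_le hY (by linarith)
        _ ≤ Real.exp (c * t) ^ D := Real.rpow_le_rpow (by linarith) hY2 hD0.le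
    rw [mem_biUnion]
    refine ⟨n1, ?_, ?_⟩
    · rw [mem_Ico]
      constructor
      · have h1 : g.d ^ N0 ≤ y := Nat.pow_log_le_self _ hy0'
        have h2 : ((g.d ^ N0 : ℕ) : ℝ) < (g.d : ℝ) ^ (n1 + 1) := by
          have : ((g.d ^ N0 : ℕ) : ℝ) ≤ y := by exact_mod_cast h1
          linarith
        have h3 : g.d ^ N0 < g.d ^ (n1 + 1) := by exact_mod_cast h2
        have h4 := (Nat.pow_lt_pow_iff_right (by omega : 1 < g.d)).1 h3
        omega
      · rw [hM]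
        have h1 : (n1 : ℝ) ≤ c * t / Real.log g.d := by
          rw [le_div_iff₀ hL]
          have h2 : (g.d : ℝ) ^ n1 ≤ Real.exp (c * t) := hn1.trans hY2
          have h3 := Real.log_le_log (by positivity) h2
          rw [Real.log_pow, Real.log_exp] at h3
          exact h3
        have h2 : n1 ≤ ⌊c * t / Real.log g.d⌋₊ := Nat.le_floor h1
        omega
    · rw [mem_filter]
      refine ⟨hA hS, ?_⟩
      rw [hR]
      simp only [mem_image]
      obtain ⟨z, hz⟩ : ∃ z : ℤ, z = n S % ((g.d ^ n1 : ℕ) : ℤ) := ⟨_, rfl⟩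
      have hpos : (0 : ℤ) < ((g.d ^ n1 : ℕ) : ℤ) := by
        have : 0 < g.d ^ n1 := by positivity
        exact_mod_cast this
      have h4 : z < ((g.d ^ n1 : ℕ) : ℤ) := by rw [hz]; exact Int.emod_lt_of_pos _ hpos
      have h5 : 0 ≤ z := by rw [hz]; exact Int.emod_nonneg _ hpos.ne'
      rw [← hz]
      refine ⟨z, ?_, rfl⟩
      rw [hW]
      simp only [mem_filter, mem_Ioc]
      have h3 : ((g.d : ℤ) ^ n1) = ((g.d ^ n1 : ℕ) : ℤ) := by push_cast; ring
      refine ⟨⟨by omega, by rw [h3]; omega⟩, n S, ?_, hSC, hU⟩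
      rw [h3, hz]
      exact (Int.mod_modEq _ _).symm
  -- the sizes
  have hE1 : 1 ≤ Real.exp (c * t) := Real.one_le_exp (by positivity)
  have hA1c : (A1.card : ℝ) ≤ 2 * C3 * (y : ℝ) ^ (-(1 : ℝ)) * (s.card : ℝ) := by
    have hZ1 : 1 ≤ Real.exp (c * t) ^ D := Real.one_le_rpow hE1 hD0.le
    have h1 := hlow (Real.exp (c * t) ^ D) hZ1 m s v ω hsum a A1 ((filter_subset _ _).trans hA) (by
      intro S hS
      rw [hA1, mem_filter] at hS
      rw [hn']
      exact hS.2)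
    have h2 : 1 / (m : ℝ) + (m : ℝ) ^ (-ω) ≤ 2 * Real.exp (-(w * t)) := by linarith
    have h3 : Real.exp (c * t) ^ D * Real.exp (-(w * t)) ≤ (y : ℝ) ^ (-(1 : ℝ)) := by
      rw [Real.rpow_neg_one, ← one_div, le_div_iff₀ hyp]
      calc Real.exp (c * t) ^ D * Real.exp (-(w * t)) * y
          ≤ Real.exp (c * t) ^ D * Real.exp (-(w * t)) * Real.exp (c * t) := by gcongr
        _ = Real.exp ((c * D + c - w) * t) := by
            rw [← Real.exp_mul, ← Real.exp_add, ← Real.exp_add]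
            congr 1
            ring
        _ ≤ 1 := by
            rw [Real.exp_le_one_iff]
            apply mul_nonpos_of_nonpos_of_nonneg _ ht0
            linarith [hcD.1, hcD.2]
    calc (A1.card : ℝ) ≤ C3 * Real.exp (c * t) ^ D * (s.card * (1 / m + (m : ℝ) ^ (-ω))) := h1
      _ ≤ C3 * Real.exp (c * t) ^ D * (s.card * (2 * Real.exp (-(w * t)))) := by gcongr
      _ = 2 * C3 * (Real.exp (c * t) ^ D * Real.exp (-(w * t))) * s.card := by ring
      _ ≤ 2 * C3 * (y : ℝ) ^ (-(1 : ℝ)) * s.card := by gcongr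
  have hkap : kap m ω (Real.exp (c * t)) ≤ Real.exp (-(w * t)) * (Real.exp (c * t) * (8 + 4 * t)) := by
    unfold kap
    have h1 : (m : ℝ) ^ (-ω) * (6 + 4 * Real.log m) ≤ Real.exp (-(w * t)) * (Real.exp (c * t) * (6 + 4 * t)) := by
      rw [← htm]
      have h2 : (6 + 4 * t) ≤ Real.exp (c * t) * (6 + 4 * t) := le_mul_of_one_le_left (by positivity) hE1
      exact mul_le_mul hmw h2 (by positivity) (Real.exp_pos _).le
    have h2 : 2 * Real.exp (c * t) / m ≤ Real.exp (-(w * t)) * (Real.exp (c * t) * 2) := by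
      have h3 : 2 * Real.exp (c * t) / m = 1 / m * (Real.exp (c * t) * 2) := by ring
      rw [h3]
      exact mul_le_mul_of_nonneg_right hmi (by positivity)
    calc _ ≤ Real.exp (-(w * t)) * (Real.exp (c * t) * (6 + 4 * t)) + Real.exp (-(w * t)) * (Real.exp (c * t) * 2) :=
          add_le_add h1 h2
      _ = _ := by ring
  have hterm : ∀ n1 ∈ Ico N0 M, ((s.filter (fun i => (n i % ((g.d ^ n1 : ℕ) : ℤ)).toNat ∈ R n1)).card : ℝ) ≤
      K1 * ϑ ^ n1 * s.card + s.card * (Real.exp (c * t) * kap m ω (Real.exp (c * t))) := by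
    intro n1 hn1
    rw [mem_Ico] at hn1
    have hcast : (((g.d ^ n1 : ℕ)) : ℝ) = (g.d : ℝ) ^ n1 := by push_cast; ring
    have hp : (0 : ℝ) < (g.d : ℝ) ^ n1 := by positivity
    have h1 := in_set m s v ω hsum a (g.d ^ n1) (by positivity) (R n1)
    simp only [hn'] at h1
    refine h1.trans ?_
    have hle : (g.d : ℝ) ^ n1 ≤ Real.exp (c * t) := by
      have h2 : n1 ≤ ⌊c * t / Real.log g.d⌋₊ := by omega
      have h3 : (n1 : ℝ) ≤ c * t / Real.log g.d := (Nat.cast_le.2 h2).trans (Nat.floor_le (by positivity))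
      rw [le_div_iff₀ hL] at h3
      calc (g.d : ℝ) ^ n1 = Real.exp (n1 * Real.log g.d) := by rw [Real.exp_nat_mul, Real.exp_log hd0]
        _ ≤ Real.exp (c * t) := Real.exp_le_exp.2 h3
    rw [hcast]
    have h2 : (s.card : ℝ) * ((R n1).card / (g.d : ℝ) ^ n1) ≤ K1 * ϑ ^ n1 * s.card := by
      calc (s.card : ℝ) * ((R n1).card / (g.d : ℝ) ^ n1)
          ≤ s.card * ((K1 * ((g.d : ℝ) ^ n1) ^ (1 - δ1)) / (g.d : ℝ) ^ n1) := by
            have := hRcard n1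
            gcongr
        _ = s.card * (K1 * (((g.d : ℝ) ^ n1) ^ (1 - δ1) * ((g.d : ℝ) ^ n1) ^ (-(1 : ℝ)))) := by
            rw [Real.rpow_neg_one]
            ring
        _ = s.card * (K1 * ((g.d : ℝ) ^ n1) ^ (-δ1)) := by
            rw [← Real.rpow_add hp]
            congr 3
            ring
        _ = K1 * ϑ ^ n1 * s.card := by
            rw [hϑ, ← Real.rpow_natCast, ← Real.rpow_natCast, ← Real.rpow_mul hd0.le, ← Real.rpow_mul hd0.le]
            have : (n1 : ℝ) * (-δ1) = -δ1 * n1 := by ring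
            rw [this]
            ring
    have h3 : (s.card : ℝ) * ((g.d : ℝ) ^ n1 * kap m ω ((g.d : ℝ) ^ n1)) ≤
        s.card * (Real.exp (c * t) * kap m ω (Real.exp (c * t))) := by
      apply mul_le_mul_of_nonneg_left _ hch0
      exact mul_le_mul hle (kap_mono m ω _ _ hle) (kap_nonneg m ω _ hp.le) (Real.exp_pos _).le
    linarith
  have hcard : (A.card : ℝ) ≤ (A1.card : ℝ) + ∑ n1 ∈ Ico N0 M,
      ((s.filter (fun i => (n i % ((g.d ^ n1 : ℕ) : ℤ)).toNat ∈ R n1)).card : ℝ) := by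
    have h1 := (card_le_card hsub).trans ((card_union_le _ _).trans (Nat.add_le_add_left card_biUnion_le _))
    exact_mod_cast h1
  have hgeo : ∑ n1 ∈ Ico N0 M, ϑ ^ n1 ≤ ϑ ^ N0 / (1 - ϑ) := geom_sum_Ico_le_of_lt_one hϑ0.le hϑ1
  have hN0y : ϑ ^ N0 ≤ (g.d : ℝ) ^ δ1 * (y : ℝ) ^ (-δ1) := by
    have h2 : y < g.d ^ (N0 + 1) := Nat.lt_pow_succ_log_self (by omega) y
    have h5 : (y : ℝ) < (g.d : ℝ) ^ (N0 + 1) := by exact_mod_cast h2
    have h6 : ((g.d : ℝ) ^ (N0 + 1)) ^ (-δ1) ≤ (y : ℝ) ^ (-δ1) :=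
      Real.rpow_le_rpow_of_nonpos hyp h5.le (by linarith)
    have h7 : ϑ ^ N0 = (g.d : ℝ) ^ δ1 * ((g.d : ℝ) ^ (N0 + 1)) ^ (-δ1) := by
      rw [hϑ, ← Real.rpow_natCast, ← Real.rpow_natCast, ← Real.rpow_mul hd0.le, ← Real.rpow_mul hd0.le,
        ← Real.rpow_add hd0]
      congr 1
      push_cast
      ring
    rw [h7]
    exact mul_le_mul_of_nonneg_left h6 (by positivity)
  have hMle : (M : ℝ) ≤ 2 * Real.exp (c * t) := by
    have h1 : (⌊c * t / Real.log g.d⌋₊ : ℝ) ≤ c * t / Real.log g.d := Nat.floor_le (by positivity)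
    obtain ⟨k, hk⟩ : ∃ k, k = ⌊c * t / Real.log g.d⌋₊ := ⟨_, rfl⟩
    rw [← hk] at h1
    have h2 : (k : ℝ) ≤ (g.d : ℝ) ^ k := by
      have h3 : k < g.d ^ k := Nat.lt_pow_self (by omega)
      exact_mod_cast h3.le
    rw [le_div_iff₀ hL] at h1
    have h3 : (g.d : ℝ) ^ k ≤ Real.exp (c * t) := by
      calc (g.d : ℝ) ^ k = Real.exp (k * Real.log g.d) := by rw [Real.exp_nat_mul, Real.exp_log hd0]
        _ ≤ Real.exp (c * t) := Real.exp_le_exp.2 h1
    rw [hM, ← hk]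
    push_cast
    linarith
  have herr : (M : ℝ) * (Real.exp (c * t) * kap m ω (Real.exp (c * t))) ≤ 2 * (y : ℝ) ^ (-(1 : ℝ)) := by
    have h0 := kap_nonneg m ω (Real.exp (c * t)) (Real.exp_pos _).le
    rw [Real.rpow_neg_one, ← div_eq_mul_inv, le_div_iff₀ hyp]
    calc (M : ℝ) * (Real.exp (c * t) * kap m ω (Real.exp (c * t))) * y
        ≤ (2 * Real.exp (c * t)) * (Real.exp (c * t) * (Real.exp (-(w * t)) * (Real.exp (c * t) * (8 + 4 * t)))) *
            Real.exp (c * t) := by gcongr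
      _ ≤ (2 * Real.exp (c * t)) * (Real.exp (c * t) * (Real.exp (-(w * t)) * (Real.exp (c * t) * Real.exp (w / 2 * t)))) *
            Real.exp (c * t) := by gcongr
      _ = 2 * Real.exp ((4 * c - w / 2) * t) := by
          have : (4 * c - w / 2) * t = c * t + (c * t + (-(w * t) + (c * t + w / 2 * t))) + c * t := by ring
          rw [this, Real.exp_add, Real.exp_add, Real.exp_add, Real.exp_add, Real.exp_add]
          ring
      _ ≤ 2 * 1 := by
          apply mul_le_mul_of_nonneg_left _ (by norm_num)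
          rw [Real.exp_le_one_iff]
          apply mul_nonpos_of_nonpos_of_nonneg _ ht0
          linarith [hcD.2]
      _ = 2 := by norm_num
  have hsum2 : ∑ n1 ∈ Ico N0 M, ((s.filter (fun i => (n i % ((g.d ^ n1 : ℕ) : ℤ)).toNat ∈ R n1)).card : ℝ) ≤
      K1 * (g.d : ℝ) ^ δ1 / (1 - ϑ) * (y : ℝ) ^ (-δ1) * s.card + 2 * (y : ℝ) ^ (-(1 : ℝ)) * s.card := by
    refine (sum_le_sum hterm).trans ?_
    rw [sum_add_distrib]
    apply add_le_add
    · rw [← sum_mul, ← mul_sum]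
      apply mul_le_mul_of_nonneg_right _ hch0
      calc K1 * ∑ n1 ∈ Ico N0 M, ϑ ^ n1 ≤ K1 * (ϑ ^ N0 / (1 - ϑ)) := mul_le_mul_of_nonneg_left hgeo hK1.le
        _ ≤ K1 * (((g.d : ℝ) ^ δ1 * (y : ℝ) ^ (-δ1)) / (1 - ϑ)) := by gcongr
        _ = _ := by ring
    · rw [sum_const, nsmul_eq_mul, Nat.card_Ico]
      have h0 := kap_nonneg m ω (Real.exp (c * t)) (Real.exp_pos _).le
      have h1 : ((M - N0 : ℕ) : ℝ) ≤ M := by exact_mod_cast Nat.sub_le _ _
      calc ((M - N0 : ℕ) : ℝ) * (s.card * (Real.exp (c * t) * kap m ω (Real.exp (c * t))))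
          ≤ M * (s.card * (Real.exp (c * t) * kap m ω (Real.exp (c * t)))) :=
            mul_le_mul_of_nonneg_right h1 (by positivity)
        _ = (M * (Real.exp (c * t) * kap m ω (Real.exp (c * t)))) * s.card := by ring
        _ ≤ _ := mul_le_mul_of_nonneg_right herr hch0
  have hfin1 : (y : ℝ) ^ (-(1 : ℝ)) ≤ (y : ℝ) ^ (-(2 * δ)) := by
    apply Real.rpow_le_rpow_of_exponent_le hy1
    have : δ ≤ 1 / 2 := by rw [hδ]; exact min_le_right _ _
    linarith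
  have hfin2 : (y : ℝ) ^ (-δ1) ≤ (y : ℝ) ^ (-(2 * δ)) := by
    apply Real.rpow_le_rpow_of_exponent_le hy1
    have : δ ≤ δ1 / 2 := by rw [hδ]; exact min_le_left _ _
    linarith
  calc (A.card : ℝ) ≤ 2 * C3 * (y : ℝ) ^ (-(1 : ℝ)) * s.card +
        (K1 * (g.d : ℝ) ^ δ1 / (1 - ϑ) * (y : ℝ) ^ (-δ1) * s.card + 2 * (y : ℝ) ^ (-(1 : ℝ)) * s.card) :=
        hcard.trans (add_le_add hA1c hsum2)
    _ ≤ 2 * C3 * (y : ℝ) ^ (-(2 * δ)) * s.card +
        (K1 * (g.d : ℝ) ^ δ1 / (1 - ϑ) * (y : ℝ) ^ (-(2 * δ)) * s.card + 2 * (y : ℝ) ^ (-(2 * δ)) * s.card) := by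
        have h0 : 0 ≤ K1 * (g.d : ℝ) ^ δ1 / (1 - ϑ) := by positivity
        gcongr
    _ = B * (y : ℝ) ^ (-(2 * δ)) * s.card := by rw [hB]; ring
    _ ≤ (y : ℝ) ^ δ * (y : ℝ) ^ (-(2 * δ)) * s.card := by gcongr
    _ = _ := by
        rw [← Real.rpow_add hyp]
        congr 2
        ring

end Pool.Agent.V11113.CT
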