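import Pool.Agent.Y57.HS.UnifD
import Pool.Agent.V11113.CT.Traj2

/-!
# The maps `x ↦ x / 2`, `(3 x + d) / 2`, simultaneously for many `d`, at the members of families with small exponential
sums
-/

set_option autoImplicit false

namespace Pool.Agent.V11113.CT.UD

open Finset Filter Polynomial
open Pool.Agent.Y927.GP Pool.Agent.H319R2 Pool.Agent.H319R2.M
open Pool.Agent.Y57.HS.UD (T g D gT gd ga size)
open Pool.Agent.V11113.MR (kap equi kap_mono kap_nonneg)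

theorem inv_mod (d : ℤ) (hd : d % 2 = 1) (x : ℤ) (k : ℕ) : ∃ x' : ℤ, 0 ≤ x' ∧ x' < 2 ^ k ∧ x ≡ d * x' [ZMOD 2 ^ k] := by
  have hcop : IsCoprime d ((2 : ℤ) ^ k) := by
    apply IsCoprime.pow_right
    obtain ⟨e, he⟩ : ∃ e : ℤ, d = 2 * e + 1 := ⟨d / 2, by omega⟩
    exact ⟨1, -e, by rw [he]; ring⟩
  obtain ⟨u, v, huv⟩ := hcop
  have hp : (0 : ℤ) < 2 ^ k := by positivity
  refine ⟨(u * x) % 2 ^ k, Int.emod_nonneg _ hp.ne', Int.emod_lt_of_pos _ hp, ?_⟩
  have h1 : d * ((u * x) % 2 ^ k) ≡ d * (u * x) [ZMOD 2 ^ k] := (Int.mod_modEq _ _).mul_left d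
  refine Int.ModEq.symm (h1.trans ?_)
  rw [Int.modEq_iff_dvd]
  refine ⟨v * x, ?_⟩
  linear_combination (-x) * huv

theorem mu_val : mu g (Mo.CC 2) (fun _ => 1 / ((2 : ℕ) : ℝ)) = 1 / 2 * Real.log 3 - Real.log 2 := by
  have h := Mo.mu_eq (le_refl 2) D
  have : mu g (Mo.CC 2) (fun _ => 1 / ((2 : ℕ) : ℝ)) = mu (Leigh.gm D) (Mo.CC 2) (fun _ => 1 / ((2 : ℕ) : ℝ)) := rfl
  rw [this, h]
  push_cast
  norm_num

/-- **The count.** -/
theorem main {ω : ℝ} (hω : 0 < ω) : ∃ c c₂ κ δ : ℝ, 0 < c ∧ 0 < c₂ ∧ 0 < κ ∧ 0 < δ ∧ ∃ t₀ : ℝ, ∀ (m : ℕ) [NeZero m] (s : ℝ),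
    s = Real.log m → t₀ ≤ s → ∀ {ι : Type} (F : Finset ι) (v : ι → ZMod m),
    (∀ w : ZMod m, w ≠ 0 → ‖∑ i ∈ F, (ZMod.stdAddChar (w * v i) : ℂ)‖ ≤ F.card * (m : ℝ) ^ (-ω)) →
    ∀ (z : ℤ) (A : Finset ι), A ⊆ F → (∀ S ∈ A, ¬ (Real.exp (c * s) ≤ |((z + ((v S).val : ℤ) : ℤ) : ℝ)| ∧
      ∀ d : ℤ, d % 2 = 1 → |(d : ℝ)| ≤ Real.exp (κ * s) → ∃ k : ℕ, (k : ℝ) ≤ c * s / Real.log 2 ∧
        |(((T d)^[k] (z + ((v S).val : ℤ)) : ℤ) : ℝ)| ≤ Real.exp (-(c₂ * s)) * |((z + ((v S).val : ℤ) : ℤ) : ℝ)|)) →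
    (A.card : ℝ) ≤ Real.exp (-(δ * s)) * (F.card : ℝ) := by
  classical
  have hl2 : 0 < Real.log 2 := Real.log_pos (by norm_num)
  have hC := Mo.cls (m := 3) (r := fun _ => (-1 : ℤ)) (le_refl 2)
  obtain ⟨μ, hμdef⟩ : ∃ μ, μ = mu g (Mo.CC 2) (fun _ => 1 / ((2 : ℕ) : ℝ)) := ⟨_, rfl⟩
  have hμv : μ = 1 / 2 * Real.log 3 - Real.log 2 := by rw [hμdef, mu_val]
  have hμ : μ < 0 := by
    have h2 : Real.log 3 < 2 * Real.log 2 := by
      have : (2 : ℝ) * Real.log 2 = Real.log 4 := by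
        rw [show (4 : ℝ) = 2 ^ 2 by norm_num, Real.log_pow]
        norm_num
      rw [this]
      exact Real.log_lt_log (by norm_num) (by norm_num)
    rw [hμv]
    linarith
  have hμ2 : -μ ≤ Real.log 2 := by
    have : 0 < Real.log 3 := Real.log_pos (by norm_num)
    rw [hμv]
    linarith
  obtain ⟨η, hη⟩ : ∃ η, η = -μ / 8 := ⟨_, rfl⟩
  have hη0 : 0 < η := by rw [hη]; linarith
  obtain ⟨c₅, K₂, hc₅, hK₂, hclass⟩ := card_classes (Leigh.gm_fac D) (Leigh.gm_cls D hC) hη0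
  have hclass' : ∀ k : ℕ, ((((Ico (0 : ℤ) (2 ^ k)).filter (fun v => Unb g μ η k v)).card : ℕ) : ℝ) ≤
      K₂ * ((k + 1) * ((2 : ℝ) ^ k * Real.exp (-(c₅ * k)))) := by
    intro k
    have h := hclass k ((Ico (0 : ℤ) (2 ^ k)).filter (fun v => Unb g μ η k v)) (by
      intro v hv
      rw [mem_filter, mem_Ico] at hv
      refine ⟨v, Mo.mem_S (le_refl 2) v, ?_, ?_⟩
      · have h1 := hv.2
        rw [hμdef] at h1
        exact h1
      · exact (Int.emod_eq_of_lt hv.1.1 hv.1.2).symm)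
    exact h
  have hX : (1 : ℕ) ≤ (X : ℤ[X]).natDegree := by rw [natDegree_X]
  obtain ⟨C3, hC3, hlow⟩ := few_low hX
  obtain ⟨w, hw⟩ : ∃ w : ℝ, w = min ω 1 := ⟨_, rfl⟩
  have hw0 : 0 < w := by rw [hw]; exact lt_min hω one_pos
  have hwω : w ≤ ω := by rw [hw]; exact min_le_left _ _
  have hw1 : w ≤ 1 := by rw [hw]; exact min_le_right _ _
  obtain ⟨c, hc⟩ : ∃ c : ℝ, c = w / 8 := ⟨_, rfl⟩
  have hc0 : 0 < c := by rw [hc]; positivity
  obtain ⟨κ, hκ⟩ : ∃ κ : ℝ, κ = min (c₅ * c / (8 * Real.log 2)) (c / 2) := ⟨_, rfl⟩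
  have hκ0 : 0 < κ := by rw [hκ]; exact lt_min (by positivity) (by positivity)
  have hκ1 : κ ≤ c₅ * c / (8 * Real.log 2) := by rw [hκ]; exact min_le_left _ _
  have hκ2 : κ ≤ c / 2 := by rw [hκ]; exact min_le_right _ _
  obtain ⟨c₂, hc₂⟩ : ∃ c₂ : ℝ, c₂ = -μ * c / (2 * Real.log 2) := ⟨_, rfl⟩
  have hc₂0 : 0 < c₂ := by
    rw [hc₂]
    apply div_pos (mul_pos (by linarith) hc0) (by positivity)
  obtain ⟨β, hβ⟩ : ∃ β : ℝ, β = min (c₅ * c / (8 * Real.log 2)) (w / 4) := ⟨_, rfl⟩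
  have hβ0 : 0 < β := by rw [hβ]; exact lt_min (by positivity) (by positivity)
  have hβ1 : β ≤ c₅ * c / (8 * Real.log 2) := by rw [hβ]; exact min_le_left _ _
  have hβ2 : β ≤ w / 4 := by rw [hβ]; exact min_le_right _ _
  -- the conditions for large `s`
  have hT1 : Tendsto (fun s : ℕ => (s : ℝ)) atTop atTop := tendsto_natCast_atTop_atTop
  have hlin : ∀ a : ℝ, 0 < a → ∀ b : ℝ, ∀ᶠ s : ℝ in atTop, b ≤ a * s := fun a ha b =>
    (tendsto_id.const_mul_atTop ha).eventually (eventually_ge_atTop b)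
  have hexp : ∀ a : ℝ, 0 < a → ∀ b : ℝ, ∀ᶠ s : ℝ in atTop, b ≤ Real.exp (a * s) := fun a ha b =>
    (Real.tendsto_exp_atTop.comp (tendsto_id.const_mul_atTop ha)).eventually (eventually_ge_atTop b)
  have hpoly : ∀ a : ℝ, 0 < a → ∀ b : ℝ, ∀ᶠ k : ℕ in atTop, b * ((k : ℝ) + 1) ≤ Real.exp (a * (k : ℝ)) := by
    intro a ha b
    have h1 : Tendsto (fun y : ℝ => Real.exp (a * y) / y ^ 1) atTop atTop :=
      tendsto_exp_mul_div_rpow_atTop 1 a ha |>.congr' (by
        filter_upwards [eventually_gt_atTop 0] with y hy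
        rw [Real.rpow_one, pow_one])
    filter_upwards [(h1.comp hT1).eventually (eventually_ge_atTop (2 * |b|)), eventually_ge_atTop 1] with k hk hk1
    have h3 : (1 : ℝ) ≤ k := by exact_mod_cast hk1
    simp only [Function.comp_apply, pow_one] at hk
    rw [le_div_iff₀ (by linarith)] at hk
    have h4 : b * ((k : ℝ) + 1) ≤ |b| * ((k : ℝ) + 1) := mul_le_mul_of_nonneg_right (le_abs_self b) (by linarith)
    have h5 : |b| * ((k : ℝ) + 1) ≤ |b| * (2 * k) := mul_le_mul_of_nonneg_left (by linarith) (abs_nonneg b)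
    linarith
  have hlinexp : ∀ᶠ t : ℝ in atTop, 8 + 4 * t ≤ Real.exp (w / 2 * t) := by
    have h1 : Tendsto (fun y : ℝ => Real.exp (w / 2 * y) / y ^ 1) atTop atTop :=
      tendsto_exp_mul_div_rpow_atTop 1 (w / 2) (by positivity) |>.congr' (by
        filter_upwards [eventually_gt_atTop 0] with y hy
        rw [Real.rpow_one, pow_one])
    filter_upwards [h1.eventually (eventually_ge_atTop 12), eventually_ge_atTop 1] with t ht ht1
    simp only [pow_one] at ht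
    rw [le_div_iff₀ (by linarith)] at ht
    linarith
  obtain ⟨k₁, hk₁⟩ := eventually_atTop.1 ((hpoly (Real.log 2) hl2 g.R).and (hpoly (c₅ / 4) (by positivity) (3 * K₂)))
  have hev : ∀ᶠ s : ℝ in atTop, Real.log 2 * (k₁ + 1) ≤ c * s ∧ c₅ / 4 ≤ c₅ * c / (8 * Real.log 2) * s ∧ Real.log 2 ≤ c / 2 * s ∧
      Real.log 4 - 7 / 8 * μ ≤ c₂ / 2 * s ∧ 8 + 4 * s ≤ Real.exp (w / 2 * s) ∧
      2 * C3 + Real.exp (c₅ / 4) + 1 ≤ Real.exp (β / 2 * s) ∧ 0 ≤ s := by
    filter_upwards [hlin c hc0 _, hlin _ (show 0 < c₅ * c / (8 * Real.log 2) by positivity) _, hlin (c / 2) (by positivity) _,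
      hlin (c₂ / 2) (by positivity) _, hlinexp,
      hexp (β / 2) (by positivity) _, eventually_ge_atTop 0] with s a1 a2 a3 a4 a5 a6 a7
    exact ⟨a1, a2, a3, a4, a5, a6, a7⟩
  obtain ⟨t₀, ht₀⟩ := eventually_atTop.1 hev
  refine ⟨c, c₂, κ, β / 2, hc0, hc₂0, hκ0, by positivity, t₀, fun m _ s htm hs ι F v hsum z A hA hbad => ?_⟩
  obtain ⟨b1, b2, b3, b4, b5, b6, hs0⟩ := ht₀ s hs
  have hm0 : (0 : ℝ) < m := by exact_mod_cast Nat.pos_of_ne_zero (NeZero.ne m)
  have hmw : (m : ℝ) ^ (-ω) ≤ Real.exp (-(w * s)) := by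
    have hmt : (m : ℝ) = Real.exp s := by rw [htm, Real.exp_log hm0]
    rw [hmt, ← Real.exp_mul]
    apply Real.exp_le_exp.2
    nlinarith
  have hmi : 1 / (m : ℝ) ≤ Real.exp (-(w * s)) := by
    have hmt : (m : ℝ) = Real.exp s := by rw [htm, Real.exp_log hm0]
    rw [hmt, one_div, ← Real.exp_neg]
    apply Real.exp_le_exp.2
    nlinarith
  obtain ⟨Fc, hFc⟩ : ∃ Fc : ℝ, Fc = F.card := ⟨_, rfl⟩
  have hch0 : (0 : ℝ) ≤ Fc := by rw [hFc]; exact Nat.cast_nonneg _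
  rw [← hFc]
  obtain ⟨n, hn⟩ : ∃ n : ι → ℤ, n = fun i => z + ((v i).val : ℤ) := ⟨_, rfl⟩
  have hn' : ∀ i, z + ((v i).val : ℤ) = n i := fun i => by rw [hn]
  simp only [hn'] at hbad
  obtain ⟨k, hk⟩ : ∃ k, k = ⌊c * s / Real.log 2⌋₊ := ⟨_, rfl⟩
  have hcs : 0 ≤ c * s / Real.log 2 := by positivity
  have hk1 : (k : ℝ) ≤ c * s / Real.log 2 := by rw [hk]; exact Nat.floor_le hcs
  have hk2 : c * s / Real.log 2 < k + 1 := by rw [hk]; exact Nat.lt_floor_add_one _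
  have hk1' : (k : ℝ) * Real.log 2 ≤ c * s := by rwa [le_div_iff₀ hl2] at hk1
  have hk2' : c * s < (k + 1) * Real.log 2 := by rwa [div_lt_iff₀ hl2] at hk2
  have hkk₁ : k₁ ≤ k := by
    have h1 : (k₁ : ℝ) + 1 < k + 1 := by
      have := lt_of_le_of_lt b1 hk2'
      rw [mul_comm] at this
      exact lt_of_mul_lt_mul_right this hl2.le
    have h2 : (k₁ : ℝ) < k := by linarith
    exact le_of_lt (by exact_mod_cast h2)
  obtain ⟨hRk, hKk⟩ := hk₁ k hkk₁
  have hk0 : (0 : ℝ) ≤ k := Nat.cast_nonneg _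
  have h2k : (2 : ℝ) ^ k = Real.exp (k * Real.log 2) := by rw [Real.exp_nat_mul, Real.exp_log (by norm_num)]
  have h2k1 : (1 : ℝ) ≤ 2 ^ k := one_le_pow₀ (by norm_num)
  obtain ⟨M, hM⟩ : ∃ M : ℕ, M = ⌊Real.exp (c₅ / 4 * k)⌋₊ := ⟨_, rfl⟩
  have hMle : (M : ℝ) ≤ Real.exp (c₅ / 4 * k) := by rw [hM]; exact Nat.floor_le (by positivity)
  have hE1 : 1 ≤ Real.exp (c₅ / 4 * k) := Real.one_le_exp (by positivity)
  have hκM : Real.exp (κ * s) ≤ Real.exp (c₅ / 4 * k) := by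
    apply Real.exp_le_exp.2
    have h1 : κ * s ≤ c₅ * c / (8 * Real.log 2) * s := mul_le_mul_of_nonneg_right hκ1 hs0
    have h2 : c₅ / 4 * (c * s / Real.log 2) ≤ c₅ / 4 * (k + 1) := mul_le_mul_of_nonneg_left hk2.le (by positivity)
    have h3 : c₅ / 4 * (c * s / Real.log 2) = 2 * (c₅ * c / (8 * Real.log 2) * s) := by ring
    linarith
  have hκ2k : Real.exp (κ * s) ≤ 2 ^ k := by
    rw [h2k]
    apply Real.exp_le_exp.2
    have h1 : κ * s ≤ c / 2 * s := mul_le_mul_of_nonneg_right hκ2 hs0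
    linarith
  obtain ⟨V, hV⟩ : ∃ V : Finset ℤ, V = (Ico (0 : ℤ) (2 ^ k)).filter (fun v => Unb g μ η k v) := ⟨_, rfl⟩
  obtain ⟨R, hR⟩ : ∃ R : Finset ℕ, R = ((Icc (-(M : ℤ)) M) ×ˢ V).image (fun z : ℤ × ℤ => (z.1 * z.2 % 2 ^ k).toNat) := ⟨_, rfl⟩
  have hpz : (0 : ℤ) < 2 ^ k := by positivity
  have hRcard : (R.card : ℝ) ≤ 3 * Real.exp (c₅ / 4 * k) * (K₂ * ((k + 1) * ((2 : ℝ) ^ k * Real.exp (-(c₅ * k))))) := by
    have h1 : R.card ≤ (2 * M + 1) * V.card := by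
      rw [hR]
      refine card_image_le.trans ?_
      rw [card_product, Int.card_Icc]
      apply Nat.mul_le_mul_right
      omega
    have h2 : (R.card : ℝ) ≤ (2 * M + 1) * V.card := by exact_mod_cast h1
    refine h2.trans ?_
    apply mul_le_mul _ _ (Nat.cast_nonneg _) (by positivity)
    · linarith
    · rw [hV]
      exact hclass' k
  obtain ⟨A1, hA1⟩ : ∃ A1 : Finset ι, A1 = A.filter (fun S => |((n S : ℤ) : ℝ)| < Real.exp (4 * (c * s))) := ⟨_, rfl⟩
  have hsub : A ⊆ A1 ∪ F.filter (fun S => (n S % ((2 ^ k : ℕ) : ℤ)).toNat ∈ R) := by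
    intro S hS
    rw [mem_union]
    by_contra hcon
    rw [not_or, hA1, mem_filter, mem_filter] at hcon
    obtain ⟨hc1, hc2⟩ := hcon
    have hbig : Real.exp (4 * (c * s)) ≤ |((n S : ℤ) : ℝ)| := by
      by_contra h
      exact hc1 ⟨hS, not_le.1 h⟩
    have hnR : (n S % ((2 ^ k : ℕ) : ℤ)).toNat ∉ R := fun h => hc2 ⟨hA hS, h⟩
    apply hbad S hS
    obtain ⟨n, hn⟩ : ∃ n₁, n₁ = n S := ⟨_, rfl⟩
    rw [← hn] at hbig hnR ⊢
    have hcs0 : 0 ≤ c * s := by positivity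
    refine ⟨(Real.exp_le_exp.2 (by linarith)).trans hbig, fun d hd hdM => ⟨k, hk1, ?_⟩⟩
    obtain ⟨x', hx0, hx1, hx2⟩ := inv_mod d hd n k
    have hU : ¬ Unb g μ η k x' := by
      intro hU
      apply hnR
      rw [hR, mem_image]
      refine ⟨(d, x'), ?_, ?_⟩
      · rw [mem_product, mem_Icc]
        have h1 : |(d : ℝ)| ≤ Real.exp (c₅ / 4 * k) := hdM.trans hκM
        have h2 : d.natAbs ≤ M := by
          rw [hM]
          apply Nat.le_floor
          rw [Nat.cast_natAbs, Int.cast_abs]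
          exact h1
        refine ⟨⟨by show -(M : ℤ) ≤ d; omega, by show d ≤ (M : ℤ); omega⟩, ?_⟩
        rw [hV, mem_filter, mem_Ico]
        exact ⟨⟨hx0, hx1⟩, hU⟩
      · have h1 : (d * x') % 2 ^ k = n % 2 ^ k := hx2.symm
        show ((d * x') % 2 ^ k).toNat = (n % ((2 ^ k : ℕ) : ℤ)).toNat
        rw [h1]
        push_cast
        rfl
    have hsz := size d hd n x' k hx2 (by
      rw [abs_of_nonneg (by exact_mod_cast hx0)]
      have : (x' : ℝ) < ((2 ^ k : ℤ) : ℝ) := by exact_mod_cast hx1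
      push_cast at this
      exact this.le) hμ.le hU
    obtain ⟨N, hN⟩ : ∃ N : ℝ, N = |(n : ℝ)| := ⟨_, rfl⟩
    rw [← hN] at hsz hbig ⊢
    refine hsz.trans ?_
    have hd2 : |(d : ℝ)| ≤ 2 ^ k := hdM.trans hκ2k
    have hn4 : ((2 : ℝ) ^ k) ^ 4 ≤ N := by
      refine le_trans ?_ hbig
      rw [h2k, ← Real.exp_nat_mul]
      apply Real.exp_le_exp.2
      push_cast
      linarith
    have hn0 : (0 : ℝ) ≤ N := by rw [hN]; exact abs_nonneg _
    have hd0 : 0 ≤ |(d : ℝ)| := abs_nonneg _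
    have e1 : |(d : ℝ)| * 2 ^ k ≤ N := by
      calc |(d : ℝ)| * 2 ^ k ≤ 2 ^ k * 2 ^ k := mul_le_mul_of_nonneg_right hd2 (by positivity)
        _ = ((2 : ℝ) ^ k) ^ 2 := by ring
        _ ≤ ((2 : ℝ) ^ k) ^ 4 := pow_le_pow_right₀ h2k1 (by norm_num)
        _ ≤ N := hn4
    have e2 : Real.exp (2 * (η * k)) ≤ 2 ^ k := by
      rw [h2k]
      apply Real.exp_le_exp.2
      rw [hη]
      have h1 : 0 ≤ (Real.log 2 + μ) * k := mul_nonneg (by linarith) hk0
      have h2 : 0 ≤ -μ * k := mul_nonneg (by linarith) hk0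
      have h3 : 2 * (-μ / 8 * k) = -μ * k / 4 := by ring
      have h4 : (Real.log 2 + μ) * k = k * Real.log 2 - -μ * k := by ring
      rw [h3]
      rw [h4] at h1
      linarith only [h1, h2]
    have e3 : g.R * (k : ℝ) ≤ 2 ^ k := by
      rw [h2k, mul_comm (k : ℝ)]
      have hR0 := g.R_nonneg
      refine le_trans ?_ hRk
      exact mul_le_mul_of_nonneg_left (by linarith only []) hR0
    have e4 : |(d : ℝ)| * (g.R * (k * Real.exp (2 * (η * k)))) ≤ (((2 : ℝ) ^ k) ^ 4) / 2 ^ k := by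
      rw [le_div_iff₀ (by positivity)]
      have hR0 := g.R_nonneg
      have h1 : g.R * (k * Real.exp (2 * (η * k))) ≤ 2 ^ k * 2 ^ k := by
        calc g.R * (k * Real.exp (2 * (η * k))) = (g.R * k) * Real.exp (2 * (η * k)) := by ring
          _ ≤ 2 ^ k * 2 ^ k := mul_le_mul e3 e2 (Real.exp_pos _).le (by positivity)
      calc |(d : ℝ)| * (g.R * (k * Real.exp (2 * (η * k)))) * 2 ^ k ≤ 2 ^ k * (2 ^ k * 2 ^ k) * 2 ^ k := by
            apply mul_le_mul_of_nonneg_right _ (by positivity)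
            exact mul_le_mul hd2 h1 (by positivity) (by positivity)
        _ = ((2 : ℝ) ^ k) ^ 4 := by ring
    have e5 : (((2 : ℝ) ^ k) ^ 4) / 2 ^ k ≤ Real.exp (k * μ + η * k) * N := by
      rw [div_eq_mul_inv, mul_comm]
      apply mul_le_mul _ hn4 (by positivity) (Real.exp_pos _).le
      rw [h2k, ← Real.exp_neg]
      apply Real.exp_le_exp.2
      have h1 : 0 ≤ (Real.log 2 + μ) * k := mul_nonneg (by linarith) hk0
      have h3 : 0 ≤ η * k := by positivity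
      have h4 : (Real.log 2 + μ) * k = k * Real.log 2 + k * μ := by ring
      rw [h4] at h1
      linarith only [h1, h3]
    have e6 : Real.exp (k * μ + η * k) * (N + 2 * (|(d : ℝ)| * 2 ^ k)) + |(d : ℝ)| * (g.R * (k * Real.exp (2 * (η * k)))) ≤
        4 * Real.exp (k * μ + η * k) * N := by
      have h1 : Real.exp (k * μ + η * k) * (N + 2 * (|(d : ℝ)| * 2 ^ k)) ≤ Real.exp (k * μ + η * k) * (3 * N) := by
        apply mul_le_mul_of_nonneg_left _ (Real.exp_pos _).le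
        linarith
      linarith [e4.trans e5]
    refine e6.trans ?_
    apply mul_le_mul_of_nonneg_right _ hn0
    have h4 : (4 : ℝ) = Real.exp (Real.log 4) := (Real.exp_log (by norm_num)).symm
    rw [h4, ← Real.exp_add]
    apply Real.exp_le_exp.2
    have h5 : (k : ℝ) * μ + η * k = 7 / 8 * μ * k := by rw [hη]; ring
    rw [h5]
    have h6 : 7 / 8 * μ * (k + 1) ≤ 7 / 8 * μ * (c * s / Real.log 2) :=
      mul_le_mul_of_nonpos_left hk2.le (by linarith)
    have h7 : 7 / 8 * μ * (c * s / Real.log 2) = -(7 / 4 * (c₂ * s)) := by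
      rw [hc₂]
      field_simp
      ring
    have h8 : 0 ≤ c₂ * s := by positivity
    linarith
  -- the counts
  have hA1c : (A1.card : ℝ) ≤ 2 * C3 * Real.exp (-(β * s)) * Fc := by
    have hZ : 1 ≤ Real.exp (4 * (c * s)) := Real.one_le_exp (by positivity)
    have h1 := hlow (Real.exp (4 * (c * s))) hZ m F v ω hsum z A1 (by
      rw [hA1]
      exact (filter_subset _ _).trans hA) (by
      intro S hS
      rw [hA1, mem_filter] at hS
      rw [eval_X, hn']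
      exact hS.2)
    rw [← hFc] at h1
    have h2 : 1 / (m : ℝ) + (m : ℝ) ^ (-ω) ≤ 2 * Real.exp (-(w * s)) := by linarith
    have h3 : Real.exp (4 * (c * s)) * Real.exp (-(w * s)) ≤ Real.exp (-(β * s)) := by
      rw [← Real.exp_add]
      apply Real.exp_le_exp.2
      rw [hc]
      nlinarith
    calc (A1.card : ℝ) ≤ C3 * Real.exp (4 * (c * s)) * (Fc * (1 / m + (m : ℝ) ^ (-ω))) := h1
      _ ≤ C3 * Real.exp (4 * (c * s)) * (Fc * (2 * Real.exp (-(w * s)))) := by gcongr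
      _ = 2 * C3 * (Real.exp (4 * (c * s)) * Real.exp (-(w * s))) * Fc := by ring
      _ ≤ 2 * C3 * Real.exp (-(β * s)) * Fc := by gcongr
  have hA2c : ((F.filter (fun S => (n S % ((2 ^ k : ℕ) : ℤ)).toNat ∈ R)).card : ℝ) ≤
      (Real.exp (c₅ / 4) + 1) * Real.exp (-(β * s)) * Fc := by
    have hcast : (((2 ^ k : ℕ)) : ℝ) = (2 : ℝ) ^ k := by push_cast; ring
    have h1 := in_set m F v ω hsum z (2 ^ k) (by positivity) R
    simp only [hn'] at h1
    rw [← hFc, hcast] at h1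
    refine h1.trans ?_
    have h3 : (R.card : ℝ) / 2 ^ k ≤ 3 * K₂ * (k + 1) * (Real.exp (c₅ / 4 * k) * Real.exp (-(c₅ * k))) := by
      rw [div_le_iff₀ (by positivity)]
      refine hRcard.trans (le_of_eq ?_)
      ring
    have h4 : (R.card : ℝ) / 2 ^ k ≤ Real.exp (c₅ / 4) * Real.exp (-(β * s)) := by
      calc (R.card : ℝ) / 2 ^ k ≤ Real.exp (c₅ / 4 * k) * (Real.exp (c₅ / 4 * k) * Real.exp (-(c₅ * k))) := by
            refine h3.trans ?_
            exact mul_le_mul_of_nonneg_right hKk (by positivity)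
        _ = Real.exp (-(c₅ / 2 * k)) := by
            rw [← Real.exp_add, ← Real.exp_add]
            congr 1
            ring
        _ ≤ Real.exp (-(c₅ / 4 * k)) := by
            apply Real.exp_le_exp.2
            nlinarith
        _ ≤ Real.exp (c₅ / 4) * Real.exp (-(β * s)) := by
            rw [← Real.exp_add]
            apply Real.exp_le_exp.2
            have h4 : c₅ / 4 * (c * s / Real.log 2) ≤ c₅ / 4 * (k + 1) := mul_le_mul_of_nonneg_left hk2.le (by positivity)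
            have h5 : c₅ / 4 * (c * s / Real.log 2) = 2 * (c₅ * c / (8 * Real.log 2) * s) := by ring
            have h6 : β * s ≤ c₅ * c / (8 * Real.log 2) * s := mul_le_mul_of_nonneg_right hβ1 hs0
            have h7 : 0 ≤ β * s := by positivity
            linarith
    have h2ke : (2 : ℝ) ^ k ≤ Real.exp (c * s) := by
      rw [h2k]
      exact Real.exp_le_exp.2 hk1'
    have hEc : 1 ≤ Real.exp (c * s) := Real.one_le_exp (by positivity)
    have hkap : kap m ω (Real.exp (c * s)) ≤ Real.exp (-(w * s)) * (Real.exp (c * s) * (8 + 4 * s)) := by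
      unfold kap
      have h1 : (m : ℝ) ^ (-ω) * (6 + 4 * Real.log m) ≤ Real.exp (-(w * s)) * (Real.exp (c * s) * (6 + 4 * s)) := by
        rw [← htm]
        have h2 : (6 + 4 * s) ≤ Real.exp (c * s) * (6 + 4 * s) := le_mul_of_one_le_left (by positivity) hEc
        exact mul_le_mul hmw h2 (by positivity) (Real.exp_pos _).le
      have h2 : 2 * Real.exp (c * s) / m ≤ Real.exp (-(w * s)) * (Real.exp (c * s) * 2) := by
        have h3 : 2 * Real.exp (c * s) / m = 1 / m * (Real.exp (c * s) * 2) := by ring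
        rw [h3]
        exact mul_le_mul_of_nonneg_right hmi (by positivity)
      calc _ ≤ Real.exp (-(w * s)) * (Real.exp (c * s) * (6 + 4 * s)) + Real.exp (-(w * s)) * (Real.exp (c * s) * 2) :=
            add_le_add h1 h2
        _ = _ := by ring
    have h5 : (2 : ℝ) ^ k * kap m ω ((2 : ℝ) ^ k) ≤ Real.exp (-(β * s)) := by
      calc (2 : ℝ) ^ k * kap m ω ((2 : ℝ) ^ k) ≤ Real.exp (c * s) * kap m ω (Real.exp (c * s)) :=
            mul_le_mul h2ke (kap_mono m ω _ _ h2ke) (kap_nonneg m ω _ (by positivity)) (Real.exp_pos _).le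
        _ ≤ Real.exp (c * s) * (Real.exp (-(w * s)) * (Real.exp (c * s) * Real.exp (w / 2 * s))) := by
            apply mul_le_mul_of_nonneg_left _ (Real.exp_pos _).le
            refine hkap.trans ?_
            gcongr
        _ = Real.exp (c * s + (-(w * s) + (c * s + w / 2 * s))) := by
            rw [Real.exp_add, Real.exp_add, Real.exp_add]
        _ ≤ Real.exp (-(β * s)) := by
            apply Real.exp_le_exp.2
            rw [hc]
            nlinarith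
    have h6 := mul_le_mul_of_nonneg_left h4 hch0
    have h7 := mul_le_mul_of_nonneg_left h5 hch0
    calc Fc * ((R.card : ℝ) / 2 ^ k) + Fc * ((2 : ℝ) ^ k * kap m ω ((2 : ℝ) ^ k))
        ≤ Fc * (Real.exp (c₅ / 4) * Real.exp (-(β * s))) + Fc * Real.exp (-(β * s)) := add_le_add h6 h7
      _ = _ := by ring
  have hcard : (A.card : ℝ) ≤ A1.card + ((F.filter (fun S => (n S % ((2 ^ k : ℕ) : ℤ)).toNat ∈ R)).card : ℝ) := by
    exact_mod_cast (card_le_card hsub).trans (card_union_le _ _)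
  calc (A.card : ℝ) ≤ 2 * C3 * Real.exp (-(β * s)) * Fc + (Real.exp (c₅ / 4) + 1) * Real.exp (-(β * s)) * Fc :=
        hcard.trans (add_le_add hA1c hA2c)
    _ = (2 * C3 + Real.exp (c₅ / 4) + 1) * (Real.exp (-(β * s)) * Fc) := by ring
    _ ≤ Real.exp (β / 2 * s) * (Real.exp (-(β * s)) * Fc) := mul_le_mul_of_nonneg_right b6 (by positivity)
    _ = Real.exp (-(β / 2 * s)) * Fc := by
        rw [← mul_assoc, ← Real.exp_add]
        congr 2
        ring

end Pool.Agent.V11113.CT.UD
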